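import Pool.Agent.Helper446.RE

/-! Computability lemmas for task C8 of project H572-PI. -/

set_option autoImplicit false

namespace Pool.Agent.H572R4.QC8

open Pool.Agent.Helper446

theorem cpand {α : Type} [Primcodable α] {p q : α → Prop} (hp : ComputablePred p)
    (hq : ComputablePred q) : ComputablePred fun a => p a ∧ q a :=
  RE.cp_of_re (RE.and hp.to_re hq.to_re)
    ((RE.or hp.not.to_re hq.not.to_re).of_eq fun a => by tauto)

theorem cpor {α : Type} [Primcodable α] {p q : α → Prop} (hp : ComputablePred p)
    (hq : ComputablePred q) : ComputablePred fun a => p a ∨ q a :=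
  RE.cp_of_re (RE.or hp.to_re hq.to_re)
    ((RE.and hp.not.to_re hq.not.to_re).of_eq fun a => by tauto)

theorem cpconst {α : Type} [Primcodable α] (P : Prop) : ComputablePred fun _ : α => P :=
  RE.cp_of_re (RE.const P) (RE.const (¬ P))

/-- parity of the number of elements below `n` -/
def par (χ : ℕ → Bool) : ℕ → Bool
  | 0 => false
  | n + 1 => xor (par χ n) (χ n)

theorem par_computable {χ : ℕ → Bool} (hχ : Computable χ) : Computable (par χ) := by
  have h := Computable.nat_rec (f := fun a : ℕ => a) (g := fun _ : ℕ => false)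
    (h := fun (_ : ℕ) (y : ℕ × Bool) => xor y.2 (χ y.1)) Computable.id (Computable.const false)
    ((Primrec.dom_bool₂ xor).to_comp.comp (Computable.snd.comp Computable.snd)
      (hχ.comp (Computable.fst.comp Computable.snd)))
  refine h.of_eq fun n => ?_
  induction n with
  | zero => rfl
  | succ n ih => simp only [par]; rw [← ih]

theorem par_stable (χ : ℕ → Bool) (x y : ℕ) (hxy : x ≤ y) (h : ∀ z, x ≤ z → z < y → χ z = false) :
    par χ y = par χ x := by
  induction y, hxy using Nat.le_induction with
  | base => rfl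
  | succ y hy ih =>
    rw [par, ih (fun z h1 h2 => h z h1 (by omega)), h y hy (by omega)]
    simp

theorem par_both (χ : ℕ → Bool) (hinf : ∀ N, ∃ x, N ≤ x ∧ χ x = true) (b : Bool) (N : ℕ) :
    ∃ x, N ≤ x ∧ χ x = true ∧ par χ x = b := by
  obtain ⟨x, hx, hxc⟩ := hinf N
  by_cases hb : par χ x = b
  · exact ⟨x, hx, hxc, hb⟩
  · have hex : ∃ y, x + 1 ≤ y ∧ χ y = true := hinf (x + 1)
    classical
    refine ⟨Nat.find hex, ?_, (Nat.find_spec hex).2, ?_⟩
    · have := (Nat.find_spec hex).1
      omega
    · have h1 := par_stable χ (x + 1) (Nat.find hex) (Nat.find_spec hex).1 (by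
        intro z hz1 hz2
        have := Nat.find_min hex hz2
        by_contra hne
        exact this ⟨hz1, by simpa using hne⟩)
      rw [h1, par, hxc]
      revert hb
      cases par χ x <;> cases b <;> simp

/-- a computable set is not cohesive -/
theorem not_coh (C : Set ℕ) (hinf : C.Infinite) (hC : ComputablePred fun x => x ∈ C)
    (hcoh : ∀ W : Set ℕ, REPred (fun x => x ∈ W) → (C ∩ W).Finite ∨ (C \ W).Finite) : False := by
  obtain ⟨χ, hχ, hχe⟩ := ComputablePred.computable_iff.1 hC
  have hmem : ∀ x, x ∈ C ↔ χ x = true := fun x => by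
    have := congrFun hχe x
    simpa using this
  have hinf' : ∀ N, ∃ x, N ≤ x ∧ χ x = true := by
    intro N
    obtain ⟨x, hx, hxN⟩ := hinf.exists_gt N
    exact ⟨x, hxN.le, (hmem x).1 hx⟩
  have hW : REPred (fun x => x ∈ {x : ℕ | par χ x = true}) :=
    RE.of_bool (par_computable hχ)
  rcases hcoh _ hW with h | h
  · obtain ⟨M, hM⟩ := h.bddAbove
    obtain ⟨x, h1, h2, h3⟩ := par_both χ hinf' true (M + 1)
    have := hM ⟨(hmem x).2 h2, h3⟩
    omega
  · obtain ⟨M, hM⟩ := h.bddAbove
    obtain ⟨x, h1, h2, h3⟩ := par_both χ hinf' false (M + 1)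
    have := hM ⟨(hmem x).2 h2, by
      show ¬ par χ x = true
      rw [h3]; simp⟩
    omega

/-- an initial segment closed set is computable -/
theorem cp_initial (P : ℕ → Prop) (h : ∀ i j, i ≤ j → P j → P i) : ComputablePred P := by
  by_cases hall : ∀ i, P i
  · exact (cpconst True).of_eq fun i => by simp [hall i]
  · push Not at hall
    classical
    have hm : ∀ i, P i ↔ i < Nat.find hall := by
      intro i
      constructor
      · intro hi
        by_contra hlt
        exact Nat.find_spec hall (h _ _ (not_lt.1 hlt) hi)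
      · intro hi
        by_contra hne
        exact Nat.find_min hall hi hne
    exact (RE.cp_lt Computable.id (Computable.const (Nat.find hall))).of_eq fun i => (hm i).symm

end Pool.Agent.H572R4.QC8
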