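import Pool.Agent.H572R4.Stmts
import Pool.Agent.H572R4.QC.C8Lem

/-! Task C8 of project H572-PI. -/

set_option autoImplicit false

namespace Pool.Agent.H572R4.QC8

open Pool.Agent.Helper446 Pool.Agent.H572R4

theorem comp1 : Computable (fun z : ℕ => z.unpair.1) :=
  Computable.fst.comp Primrec.unpair.to_comp

theorem compA : Computable (fun z : ℕ => z.unpair.2.unpair.1) :=
  Computable.fst.comp (Primrec.unpair.to_comp.comp (Computable.snd.comp Primrec.unpair.to_comp))

theorem compI : Computable (fun z : ℕ => z.unpair.2.unpair.2) :=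
  Computable.snd.comp (Primrec.unpair.to_comp.comp (Computable.snd.comp Primrec.unpair.to_comp))

/-- the c.e. set -/
def AA (C : Set ℕ) (I : ℕ → ℕ → ℕ → Prop) : Set ℕ :=
  {z | z.unpair.2.unpair.1 ∉ C ∨ I z.unpair.1 z.unpair.2.unpair.1 z.unpair.2.unpair.2}

theorem aa_re (C : Set ℕ) (I : ℕ → ℕ → ℕ → Prop) (hC : REPred (fun x => x ∉ C))
    (hI : REPred fun x : (ℕ × ℕ) × ℕ => I x.1.1 x.1.2 x.2) : REPred (fun z => z ∈ AA C I) := by
  have h1 : REPred fun z : ℕ => z.unpair.2.unpair.1 ∉ C :=
    RE.comp (p := fun x => x ∉ C) hC compA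
  have h2 : REPred fun z : ℕ => I z.unpair.1 z.unpair.2.unpair.1 z.unpair.2.unpair.2 :=
    RE.comp (p := fun x : (ℕ × ℕ) × ℕ => I x.1.1 x.1.2 x.2) hI
      (f := fun z : ℕ => ((z.unpair.1, z.unpair.2.unpair.1), z.unpair.2.unpair.2))
      ((comp1.pair compA).pair compI)
  exact RE.or h1 h2

theorem row_cr_of_full (C : Set ℕ) (I : ℕ → ℕ → ℕ → Prop) (n a0 : ℕ)
    (hmono : ∀ a i j, i ≤ j → I n a j → I n a i) (hfull : ∀ b, a0 ≤ b → ∀ i, I n b i) :
    CR (row n ∩ AA C I) := by
  have hcol : ∀ m : ℕ, ComputablePred fun z : ℕ =>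
      ∀ a < m, z.unpair.2.unpair.1 = a → (a ∉ C ∨ I n a z.unpair.2.unpair.2) := by
    intro m
    induction m with
    | zero => exact (cpconst True).of_eq fun z => by simp
    | succ m ih =>
      have h1 : ComputablePred fun i : ℕ => m ∉ C ∨ I n m i :=
        cp_initial _ fun i j hij h => h.imp id (hmono m i j hij)
      have h2 : ComputablePred fun z : ℕ => m ∉ C ∨ I n m z.unpair.2.unpair.2 :=
        RE.cp_comp h1 compI
      have h3 : ComputablePred fun z : ℕ => ¬ z.unpair.2.unpair.1 = m :=
        (RE.cp_eq compA (Computable.const m)).not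
      refine (cpand ih (cpor h3 h2)).of_eq fun z => ?_
      constructor
      · rintro ⟨g1, g2⟩ a ha hz
        rcases Nat.lt_succ_iff_lt_or_eq.1 ha with h | h
        · exact g1 a h hz
        · subst h
          exact g2.resolve_left (fun h => h hz)
      · intro g
        refine ⟨fun a ha hz => g a (by omega) hz, ?_⟩
        by_cases hz : z.unpair.2.unpair.1 = m
        · exact Or.inr (g m (by omega) hz)
        · exact Or.inl hz
  have h4 : ComputablePred fun z : ℕ => z.unpair.1 = n := RE.cp_eq comp1 (Computable.const n)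
  refine (cpand h4 (hcol a0)).of_eq fun z => ?_
  constructor
  · rintro ⟨g1, g2⟩
    refine ⟨g1, ?_⟩
    show z.unpair.2.unpair.1 ∉ C ∨ I z.unpair.1 z.unpair.2.unpair.1 z.unpair.2.unpair.2
    rw [g1]
    by_cases hz : z.unpair.2.unpair.1 < a0
    · exact g2 _ hz rfl
    · exact Or.inr (hfull _ (not_lt.1 hz) _)
  · rintro ⟨g1, g2⟩
    have g1' : z.unpair.1 = n := g1
    have g2' : z.unpair.2.unpair.1 ∉ C ∨
      I z.unpair.1 z.unpair.2.unpair.1 z.unpair.2.unpair.2 := g2
    rw [g1'] at g2'
    refine ⟨g1', fun a _ hz => ?_⟩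
    subst hz
    exact g2'

theorem taskC8 : TaskC8 := by
  intro hB h7 D hD
  obtain ⟨C, hinf, hco, hcoh⟩ := hB
  obtain ⟨I, hI, hmono, hup, hDI⟩ := h7 D (hD.1 Even.zero)
  refine ⟨fun _ => AA C I, fun _ => aa_re C I hco hI, fun _ _ _ _ => subset_rfl, fun n => ?_⟩
  show ¬ CR (row n ∩ AA C I) ↔ D n
  constructor
  · intro h
    by_contra hDn
    apply h
    rw [hDI] at hDn
    push Not at hDn
    obtain ⟨a0, ha0⟩ := hDn
    exact row_cr_of_full C I n a0 (fun a => hmono n a) (fun b hb => hup n a0 b hb ha0)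
  · intro hDn hcr
    rw [hDI] at hDn
    have hCre : REPred fun a => a ∈ C := by
      have h1 : ComputablePred fun x : ℕ × ℕ =>
          ¬ (Nat.pair n (Nat.pair x.1 x.2) ∈ row n ∩ AA C I) :=
        (RE.cp_comp (p := fun z => z ∈ row n ∩ AA C I) hcr
          (f := fun x : ℕ × ℕ => Nat.pair n (Nat.pair x.1 x.2))
          (Primrec₂.natPair.to_comp.comp (Computable.const n)
            (Primrec₂.natPair.to_comp.comp Computable.fst Computable.snd))).not
      refine (RE.exN (p := fun a i => ¬ (Nat.pair n (Nat.pair a i) ∈ row n ∩ AA C I))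
        h1.to_re).of_eq fun a => ?_
      have hmem : ∀ i, Nat.pair n (Nat.pair a i) ∈ row n ∩ AA C I ↔ (a ∉ C ∨ I n a i) := by
        intro i
        constructor
        · rintro ⟨-, h⟩
          have h' : (Nat.pair n (Nat.pair a i)).unpair.2.unpair.1 ∉ C ∨
            I (Nat.pair n (Nat.pair a i)).unpair.1 (Nat.pair n (Nat.pair a i)).unpair.2.unpair.1
              (Nat.pair n (Nat.pair a i)).unpair.2.unpair.2 := h
          simpa using h'
        · intro h
          refine ⟨?_, ?_⟩
          · show (Nat.pair n (Nat.pair a i)).unpair.1 = n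
            simp
          · show (Nat.pair n (Nat.pair a i)).unpair.2.unpair.1 ∉ C ∨
              I (Nat.pair n (Nat.pair a i)).unpair.1 (Nat.pair n (Nat.pair a i)).unpair.2.unpair.1
                (Nat.pair n (Nat.pair a i)).unpair.2.unpair.2
            simpa using h
      constructor
      · rintro ⟨i, hi⟩
        rw [hmem] at hi
        by_contra ha
        exact hi (Or.inl ha)
      · intro ha
        have h2 := hDn a
        push Not at h2
        obtain ⟨i, hi⟩ := h2
        refine ⟨i, ?_⟩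
        rw [hmem]
        rintro (h | h)
        · exact h ha
        · exact hi h
    exact not_coh C hinf (RE.cp_of_re hCre hco) hcoh

end Pool.Agent.H572R4.QC8

namespace Pool.Agent.H572R4

theorem taskC8 : TaskC8 := QC8.taskC8

end Pool.Agent.H572R4
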